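import Pool.Agent.Helper8.Kak.DefsC

/-! # Module B0 of MP_013a6c_an: arithmetic of `pat`, `rnk`, `pos`. -/

open MeasureTheory Set Topology Filter
open scoped symmDiff ENNReal ProbabilityTheory

namespace KakC

private theorem B0_div1 (N c i r : ℕ) (hc : 0 < c) :
    ((r / c) * (N * c) + i * c + r % c) / c = (r / c) * N + i := by
  have h1 : (r / c) * (N * c) + i * c + r % c = c * ((r / c) * N + i) + r % c := by ring
  rw [h1, Nat.mul_add_div hc, Nat.div_eq_of_lt (Nat.mod_lt _ hc), add_zero]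

private theorem B0_div2 (N c i r : ℕ) (hc : 0 < c) (hN : 0 < N) (hi : i < N) :
    ((r / c) * (N * c) + i * c + r % c) / (N * c) = r / c := by
  rw [mul_comm N c, ← Nat.div_div_eq_div_mul, mul_comm c N, B0_div1 N c i r hc, mul_comm (r / c) N,
    Nat.mul_add_div hN, Nat.div_eq_of_lt hi, add_zero]

private theorem B0_mod1 (N c i r : ℕ) :
    ((r / c) * (N * c) + i * c + r % c) % c = r % c := by
  have h1 : (r / c) * (N * c) + i * c + r % c = r % c + c * ((r / c) * N + i) := by ring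
  rw [h1, Nat.add_mul_mod_self_left, Nat.mod_mod]

private theorem B0_rdiv (N c q : ℕ) (hc : 0 < c) :
    (q / (N * c) * c + q % c) / c = q / (N * c) := by
  rw [mul_comm (q / (N * c)) c, Nat.mul_add_div hc, Nat.div_eq_of_lt (Nat.mod_lt _ hc), add_zero]

private theorem B0_rmod (N c q : ℕ) :
    (q / (N * c) * c + q % c) % c = q % c := by
  rw [mul_comm (q / (N * c)) c, Nat.mul_add_mod, Nat.mod_mod]

private theorem B0_back (N c q : ℕ) :
    (q / (N * c)) * (N * c) + ((q / c) % N) * c + q % c = q := by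
  have h1 : q / (N * c) = (q / c) / N := by
    rw [mul_comm N c, Nat.div_div_eq_div_mul]
  rw [h1]
  have h2 := Nat.div_add_mod (q / c) N
  have h3 := Nat.div_add_mod q c
  calc (q / c) / N * (N * c) + ((q / c) % N) * c + q % c
      = (N * ((q / c) / N) + (q / c) % N) * c + q % c := by ring
    _ = (q / c) * c + q % c := by rw [h2]
    _ = q := by rw [mul_comm]; exact h3

private theorem B0_apow_pos (k e : ℕ) : 0 < a k ^ e := pow_pos (a_pos k) e

theorem pow_ex_dvd_Q {k j : ℕ} (hj : j < N (k + 1)) (b : Prop) [Decidable b] :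
    a k ^ ex k j b ∣ Q k := by
  unfold Q
  apply pow_dvd_pow
  unfold ex
  split_ifs <;> omega

theorem pat_lt (k t j q : ℕ) : pat k t j q < N k := by
  unfold pat
  exact Nat.mod_lt _ (N_pos k)

theorem rnk_lt {k t j q : ℕ} (hj : j < N (k + 1)) (hq : q < L k) : rnk k t j q < A k := by
  unfold rnk
  set c := a k ^ ex k j (q < t * (N k * Q k)) with hc
  have hc0 : 0 < c := B0_apow_pos _ _
  obtain ⟨m, hm⟩ : c ∣ Q k := pow_ex_dvd_Q hj _
  have hA : A k = M k * m * c := by unfold A; rw [hm]; ring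
  have hL : L k = M k * m * (N k * c) := by unfold L; rw [hA]; ring
  have h1 : q / (N k * c) < M k * m := by
    rw [Nat.div_lt_iff_lt_mul (Nat.mul_pos (N_pos k) hc0), ← hL]
    exact hq
  have h2 : q % c < c := Nat.mod_lt _ hc0
  calc q / (N k * c) * c + q % c < q / (N k * c) * c + c := by omega
    _ = (q / (N k * c) + 1) * c := by ring
    _ ≤ (M k * m) * c := Nat.mul_le_mul_right _ h1
    _ = A k := hA.symm

theorem pos_lt {k t j i r : ℕ} (hj : j < N (k + 1)) (hi : i < N k) (hr : r < A k) :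
    pos k t j i r < L k := by
  unfold pos
  set c := a k ^ ex k j (r < t * Q k) with hc
  have hc0 : 0 < c := B0_apow_pos _ _
  obtain ⟨m, hm⟩ : c ∣ Q k := pow_ex_dvd_Q hj _
  have hA : A k = M k * m * c := by unfold A; rw [hm]; ring
  have hL : L k = M k * m * (N k * c) := by unfold L; rw [hA]; ring
  have hNc : 0 < N k * c := Nat.mul_pos (N_pos k) hc0
  rw [hL, ← Nat.div_lt_iff_lt_mul hNc, B0_div2 (N k) c i r hc0 (N_pos k) hi,
    Nat.div_lt_iff_lt_mul hc0, ← hA]
  exact hr

theorem pos_lt_iff {k t j i r : ℕ} (hj : j < N (k + 1)) (hi : i < N k) :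
    pos k t j i r < t * (N k * Q k) ↔ r < t * Q k := by
  unfold pos
  set c := a k ^ ex k j (r < t * Q k) with hc
  have hc0 : 0 < c := B0_apow_pos _ _
  obtain ⟨m, hm⟩ : c ∣ Q k := pow_ex_dvd_Q hj _
  have hNc : 0 < N k * c := Nat.mul_pos (N_pos k) hc0
  have h1 : t * (N k * Q k) = t * m * (N k * c) := by rw [hm]; ring
  have h2 : t * Q k = t * m * c := by rw [hm]; ring
  rw [h1, h2, ← Nat.div_lt_iff_lt_mul hNc, B0_div2 (N k) c i r hc0 (N_pos k) hi,
    Nat.div_lt_iff_lt_mul hc0]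

theorem rnk_lt_iff {k t j q : ℕ} (hj : j < N (k + 1)) :
    rnk k t j q < t * Q k ↔ q < t * (N k * Q k) := by
  unfold rnk
  set c := a k ^ ex k j (q < t * (N k * Q k)) with hc
  have hc0 : 0 < c := B0_apow_pos _ _
  obtain ⟨m, hm⟩ : c ∣ Q k := pow_ex_dvd_Q hj _
  have hNc : 0 < N k * c := Nat.mul_pos (N_pos k) hc0
  have h1 : t * (N k * Q k) = t * m * (N k * c) := by rw [hm]; ring
  have h2 : t * Q k = t * m * c := by rw [hm]; ring
  rw [h1, h2, ← Nat.div_lt_iff_lt_mul hc0, B0_rdiv (N k) c q hc0, Nat.div_lt_iff_lt_mul hNc]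

private theorem B0_ex_pos {k t j i r : ℕ} (hj : j < N (k + 1)) (hi : i < N k) :
    ex k j (pos k t j i r < t * (N k * Q k)) = ex k j (r < t * Q k) := by
  unfold ex
  have := pos_lt_iff (t := t) (r := r) hj hi
  by_cases h : r < t * Q k
  · rw [if_pos h, if_pos (this.2 h)]
  · rw [if_neg h, if_neg (fun h' => h (this.1 h'))]

private theorem B0_ex_rnk {k t j q : ℕ} (hj : j < N (k + 1)) :
    ex k j (rnk k t j q < t * Q k) = ex k j (q < t * (N k * Q k)) := by
  unfold ex
  have := rnk_lt_iff (t := t) (q := q) hj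
  by_cases h : q < t * (N k * Q k)
  · rw [if_pos h, if_pos (this.2 h)]
  · rw [if_neg h, if_neg (fun h' => h (this.1 h'))]

theorem pat_pos {k t j i r : ℕ} (hj : j < N (k + 1)) (hi : i < N k) :
    pat k t j (pos k t j i r) = i := by
  rw [pat, B0_ex_pos hj hi, pos]
  set c := a k ^ ex k j (r < t * Q k) with hc
  have hc0 : 0 < c := B0_apow_pos _ _
  rw [B0_div1 (N k) c i r hc0, mul_comm (r / c) (N k), Nat.mul_add_mod, Nat.mod_eq_of_lt hi]

theorem rnk_pos {k t j i r : ℕ} (hj : j < N (k + 1)) (hi : i < N k) :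
    rnk k t j (pos k t j i r) = r := by
  rw [rnk, B0_ex_pos hj hi, pos]
  set c := a k ^ ex k j (r < t * Q k) with hc
  have hc0 : 0 < c := B0_apow_pos _ _
  rw [B0_div2 (N k) c i r hc0 (N_pos k) hi, B0_mod1, mul_comm]
  exact Nat.div_add_mod r c

theorem pos_pat_rnk {k t j q : ℕ} (hj : j < N (k + 1)) :
    pos k t j (pat k t j q) (rnk k t j q) = q := by
  rw [pos, B0_ex_rnk hj, pat, rnk]
  set c := a k ^ ex k j (q < t * (N k * Q k)) with hc
  have hc0 : 0 < c := B0_apow_pos _ _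
  rw [B0_rdiv (N k) c q hc0, B0_rmod]
  exact B0_back (N k) c q

theorem pos_congr {k t t' j i r : ℕ} (hr : r < t * Q k ↔ r < t' * Q k) :
    pos k t j i r = pos k t' j i r := by
  have h : ex k j (r < t * Q k) = ex k j (r < t' * Q k) := by
    unfold ex
    by_cases h : r < t * Q k
    · rw [if_pos h, if_pos (hr.1 h)]
    · rw [if_neg h, if_neg (fun h' => h (hr.2 h'))]
  unfold pos
  rw [h]

theorem pat_zero {k t j : ℕ} : pat k t j 0 = 0 := by
  unfold pat
  rw [Nat.zero_div, Nat.zero_mod]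

end KakC
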