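import Pool.Agent.Helper14.Kak.B0

/-! # Module B1 of MP_013a6c_an: basic properties of `w` and `repl`. -/

open MeasureTheory Set Topology Filter
open scoped symmDiff ENNReal ProbabilityTheory

namespace KakC

theorem w_fst (t : ℕ → ℕ) (k : ℕ) (ξ : PP) : (w t k ξ).1 = (ξ k).1 := by
  cases k <;> rfl

private theorem B1_w_succ (t : ℕ → ℕ) (k : ℕ) (ξ : PP) : w t (k + 1) ξ =
    (((ξ (k + 1)).1 : ℕ),
      pos k (t k) (ξ (k + 1)).1 (ξ k).1 (ξ (k + 1)).2 * h k + (w t k ξ).2) := rfl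

private theorem B1_pos_lt (t : ℕ → ℕ) (k : ℕ) (ξ : PP) :
    pos k (t k) (ξ (k + 1)).1 (ξ k).1 (ξ (k + 1)).2 < L k :=
  pos_lt (ξ (k + 1)).1.isLt (ξ k).1.isLt (ξ (k + 1)).2.isLt

theorem w_mem (t : ℕ → ℕ) (k : ℕ) (ξ : PP) : w t k ξ ∈ Om k := by
  induction k with
  | zero => exact ⟨(ξ 0).1.isLt, h_pos 0⟩
  | succ k ih =>
    refine ⟨(ξ (k + 1)).1.isLt, ?_⟩
    have h1 := B1_pos_lt t k ξ
    have h2 : (w t k ξ).2 < h k := ih.2
    rw [B1_w_succ]
    calc pos k (t k) (ξ (k + 1)).1 (ξ k).1 (ξ (k + 1)).2 * h k + (w t k ξ).2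
        < pos k (t k) (ξ (k + 1)).1 (ξ k).1 (ξ (k + 1)).2 * h k + h k := by omega
      _ = (pos k (t k) (ξ (k + 1)).1 (ξ k).1 (ξ (k + 1)).2 + 1) * h k := by ring
      _ ≤ L k * h k := Nat.mul_le_mul_right _ h1

theorem proj_w (t : ℕ → ℕ) (k : ℕ) (ξ : PP) : proj k (t k) (w t (k + 1) ξ) = w t k ξ := by
  have h2 : (w t k ξ).2 < h k := (w_mem t k ξ).2
  have h3 : 0 < h k := h_pos k
  rw [B1_w_succ]
  unfold proj
  have e1 : (pos k (t k) (ξ (k + 1)).1 (ξ k).1 (ξ (k + 1)).2 * h k + (w t k ξ).2) / h k =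
      pos k (t k) (ξ (k + 1)).1 (ξ k).1 (ξ (k + 1)).2 := by
    rw [mul_comm, Nat.mul_add_div h3, Nat.div_eq_of_lt h2, add_zero]
  have e2 : (pos k (t k) (ξ (k + 1)).1 (ξ k).1 (ξ (k + 1)).2 * h k + (w t k ξ).2) % h k =
      (w t k ξ).2 := by
    rw [mul_comm, Nat.mul_add_mod, Nat.mod_eq_of_lt h2]
  ext
  · simp only [e1]
    rw [w_fst]
    exact pat_pos (ξ (k + 1)).1.isLt (ξ k).1.isLt
  · simp only [e2]

theorem proj_mem {t : ℕ → ℕ} {k : ℕ} {ω : ℕ × ℕ} : proj k (t k) ω ∈ Om k :=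
  ⟨pat_lt k (t k) ω.1 (ω.2 / h k), Nat.mod_lt _ (h_pos k)⟩

theorem w_congr {t s : ℕ → ℕ} {k : ℕ} {ξ η : PP} (hts : ∀ j < k, t j = s j)
    (hξ : ∀ j ≤ k, ξ j = η j) : w t k ξ = w s k η := by
  induction k with
  | zero =>
    have := hξ 0 le_rfl
    change (((ξ 0).1 : ℕ), 0) = (((η 0).1 : ℕ), 0)
    rw [this]
  | succ k ih =>
    rw [B1_w_succ, B1_w_succ, ih (fun j hj => hts j (by omega)) (fun j hj => hξ j (by omega)),
      hξ (k + 1) le_rfl, hξ k (by omega), hts k (by omega)]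

theorem repl_above (t : ℕ → ℕ) {k j : ℕ} (hj : k < j) (ω : ℕ × ℕ) (ξ : PP) :
    repl t k ω ξ j = ξ j := by
  induction k generalizing ω with
  | zero =>
    unfold repl
    rw [Function.update_of_ne (by omega)]
  | succ k ih =>
    unfold repl
    rw [Function.update_of_ne (by omega)]
    exact ih (by omega) _

theorem w_repl (t : ℕ → ℕ) {k : ℕ} {ω : ℕ × ℕ} (hω : ω ∈ Om k) (ξ : PP) :
    w t k (repl t k ω ξ) = ω := by
  induction k generalizing ω with
  | zero =>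
    obtain ⟨h1, h2⟩ := hω
    have h3 : ω.2 = 0 := by
      have : h 0 = 1 := rfl
      omega
    change ((((Function.update ξ 0 (Fin.ofNat (N 0) ω.1, Fin.ofNat (B 0) 0)) 0).1 : ℕ), 0) = ω
    rw [Function.update_self]
    ext
    · simp only [Fin.ofNat]
      exact Nat.mod_eq_of_lt h1
    · exact h3.symm
  | succ k ih =>
    obtain ⟨h1, h2⟩ := hω
    have hp : proj k (t k) ω ∈ Om k := proj_mem
    have hL : ω.2 / h k < L k := by
      rw [Nat.div_lt_iff_lt_mul (h_pos k)]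
      exact h2
    have hr : rnk k (t k) ω.1 (ω.2 / h k) < A k := rnk_lt h1 hL
    set ξ' : PP := repl t (k + 1) ω ξ with hξ'
    have hk1 : ξ' (k + 1) = (Fin.ofNat (N (k + 1)) ω.1,
        Fin.ofNat (B (k + 1)) (rnk k (t k) ω.1 (ω.2 / h k))) := by
      rw [hξ', repl, Function.update_self]
    have hle : ∀ j ≤ k, ξ' j = (repl t k (proj k (t k) ω) ξ) j := by
      intro j hj
      rw [hξ', repl, Function.update_of_ne (by omega)]
    have hw : w t k ξ' = proj k (t k) ω := by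
      rw [w_congr (t := t) (s := t) (fun _ _ => rfl) hle, ih hp]
    have hf : ((ξ' k).1 : ℕ) = pat k (t k) ω.1 (ω.2 / h k) := by
      rw [← w_fst t k ξ', hw]
      rfl
    have hs : (w t k ξ').2 = ω.2 % h k := by
      rw [hw]
      rfl
    have e1 : (((ξ' (k + 1)).1 : Fin (N (k + 1))) : ℕ) = ω.1 := by
      rw [hk1]
      exact Nat.mod_eq_of_lt h1
    have e2 : (((ξ' (k + 1)).2 : Fin (B (k + 1))) : ℕ) = rnk k (t k) ω.1 (ω.2 / h k) := by
      rw [hk1]
      exact Nat.mod_eq_of_lt hr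
    rw [B1_w_succ, e1, e2, hf, hs, pos_pat_rnk h1, mul_comm, Nat.div_add_mod]

theorem w_inj {t : ℕ → ℕ} {k : ℕ} {ξ η : PP} (hw : w t k ξ = w t k η) :
    ∀ j ≤ k, ξ j = η j := by
  induction k with
  | zero =>
    intro j hj
    obtain rfl : j = 0 := by omega
    have h1 : ((ξ 0).1 : ℕ) = (η 0).1 := by
      have := congrArg Prod.fst hw
      rwa [w_fst, w_fst] at this
    have hB : B 0 = 1 := rfl
    have h2 : ((ξ 0).2 : ℕ) = (η 0).2 := by
      have a1 := (ξ 0).2.isLt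
      have a2 := (η 0).2.isLt
      omega
    exact Prod.ext (Fin.ext h1) (Fin.ext h2)
  | succ k ih =>
    have hwk : w t k ξ = w t k η := by
      rw [← proj_w t k ξ, ← proj_w t k η, hw]
    have hle := ih hwk
    intro j hj
    rcases Nat.lt_or_ge k j with hkj | hkj
    · obtain rfl : j = k + 1 := by omega
      have h1 : ((ξ (k + 1)).1 : ℕ) = (η (k + 1)).1 := by
        have := congrArg Prod.fst hw
        rwa [w_fst, w_fst] at this
      have h2 := congrArg Prod.snd hw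
      rw [B1_w_succ, B1_w_succ] at h2
      simp only [hwk] at h2
      have h3 : pos k (t k) (ξ (k + 1)).1 (ξ k).1 (ξ (k + 1)).2 =
          pos k (t k) (η (k + 1)).1 (η k).1 (η (k + 1)).2 := by
        have h4 := Nat.add_right_cancel h2
        exact Nat.eq_of_mul_eq_mul_right (h_pos k) h4
      have h5 := congrArg (rnk k (t k) (ξ (k + 1)).1) h3
      rw [rnk_pos (ξ (k + 1)).1.isLt (ξ k).1.isLt, h1, rnk_pos (η (k + 1)).1.isLt (η k).1.isLt] at h5
      exact Prod.ext (Fin.ext h1) (Fin.ext h5)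
    · exact hle j hkj

theorem repl_w (t : ℕ → ℕ) (k : ℕ) (ξ : PP) : repl t k (w t k ξ) ξ = ξ := by
  funext j
  rcases Nat.lt_or_ge k j with hkj | hkj
  · exact repl_above t hkj _ _
  · exact w_inj (w_repl t (w_mem t k ξ) ξ) j hkj

theorem repl_congr {t s : ℕ → ℕ} {k : ℕ} {ω : ℕ × ℕ} {ξ : PP} (hts : ∀ j < k, t j = s j) :
    repl t k ω ξ = repl s k ω ξ := by
  induction k generalizing ω with
  | zero => rfl
  | succ k ih =>
    rw [repl, repl, hts k (by omega), ih (fun j hj => hts j (by omega))]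

/-- next and previous level are compatible with the projections -/
theorem proj_succ {k t : ℕ} {ω : ℕ × ℕ} (hl : (proj k t ω).2 + 1 < h k) :
    proj k t (ω.1, ω.2 + 1) = ((proj k t ω).1, (proj k t ω).2 + 1) := by
  unfold proj at hl ⊢
  simp only [] at hl ⊢
  have h3 : 0 < h k := h_pos k
  have hd := Nat.div_add_mod ω.2 (h k)
  have e1 : (ω.2 + 1) / h k = ω.2 / h k := by
    rw [Nat.div_eq_iff h3]
    constructor
    · have : ω.2 / h k * h k = h k * (ω.2 / h k) := mul_comm _ _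
      omega
    · have : ω.2 / h k * h k = h k * (ω.2 / h k) := mul_comm _ _
      omega
  have e2 : (ω.2 + 1) % h k = ω.2 % h k + 1 := by
    have h4 : ω.2 + 1 = (ω.2 % h k + 1) + h k * (ω.2 / h k) := by omega
    rw [h4, Nat.add_mul_mod_self_left, Nat.mod_eq_of_lt hl]
  rw [e1, e2]

end KakC
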